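import Pool.Agent.H608.Ge.Lead
import Pool.Agent.H608.Ge.Omit
import Pool.Agent.H608.Me.SerMea
import Mathlib

/-!
# `ζ(2) ζ(3)` and the span of `ζ(2), …, ζ(5)`, for series with very few omitted terms

For a set `E` of positive integers let `ζ_E(s) = ∑_(n ∉ E) n ^ (-s)`. For every `ε > 0` there are sets `E` with at most
`ε log log K` elements up to `K` such that `ζ_E(2) ζ_E(3)` is not in the rational span of `1, ζ_E(2), …, ζ_E(5)`, with a
lower bound for the linear forms, `|a₀ ζ_E(2) ζ_E(3) + a₁ ζ_E(2) + … + a₄ ζ_E(5) + a₅| ≥ max |a_i| ^ (-c)`, and the same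
with `ζ_E(2) ^ 2` in place of `ζ_E(4)`. More generally, `|P (ζ_E(2), …, ζ_E(t + 1))| ≥ H ^ (-c)` with `c = c(t, d)` for
all nonzero integer polynomials of degree at most `d` and height at most `H`, for all `t` and `d`.
-/

set_option autoImplicit false

namespace Pool.Agent.Results.MP_524521_nt.FewOmittedIntegers

open Finset Filter Topology Metric
open Pool.Agent.H608.Ge Pool.Agent.H608.Me

/-- `A` has at least `H ^ δ` elements in `[H, 2 H)`, for some `δ > 0` and all large `H` -/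
def PolyDense (A : Set ℕ) : Prop :=
  ∃ δ : ℝ, 0 < δ ∧ ∀ᶠ H : ℕ in atTop, (H : ℝ) ^ δ ≤ (({k : ℕ | k ∈ A ∧ H ≤ k ∧ k < 2 * H}.ncard : ℕ) : ℝ)

open Classical in
/-- the sum of `1 / n ^ s` over the positive integers `n` outside of `E` -/
noncomputable def zetaE (E : Set ℕ) (s : ℕ) : ℝ := ∑' n : ℕ, if n + 1 ∈ E then 0 else 1 / ((n + 1 : ℕ) : ℝ) ^ s

lemma summable_pow {s : ℕ} (hs : 2 ≤ s) : Summable fun n : ℕ => 1 / ((n + 1 : ℕ) : ℝ) ^ s :=
  (summable_nat_add_iff 1).2 (Real.summable_one_div_nat_pow.2 (by omega : 1 < s))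

lemma zetaE_empty {s : ℕ} (hs : 2 ≤ s) : ((zetaE ∅ s : ℝ) : ℂ) = riemannZeta s := by
  rw [zeta_nat_eq_tsum_of_gt_one (by omega : 1 < s)]
  unfold zetaE
  simp only [Set.mem_empty_iff_false, if_false]
  rw [Complex.ofReal_tsum]
  have h1 : Summable fun n : ℕ => 1 / (n : ℂ) ^ s := by
    have h2 := Complex.summable_ofReal.2 (Real.summable_one_div_nat_pow.2 (by omega : 1 < s))
    refine h2.congr fun n => ?_
    push_cast
    rfl
  rw [h1.tsum_eq_zero_add]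
  have h3 : 1 / ((0 : ℕ) : ℂ) ^ s = 0 := by
    rw [Nat.cast_zero, zero_pow (by omega), div_zero]
  rw [h3, zero_add]
  apply tsum_congr
  intro n
  push_cast
  rfl

/-- the series for `ζ(s)` -/
noncomputable def serN (s : ℕ) (hs : 2 ≤ s) : Ser where
  x := ∑' n : ℕ, 1 / ((n + 1 : ℕ) : ℝ) ^ s
  τ k := 1 / (k : ℝ) ^ s
  g w := w ^ s
  gd := Eventually.of_forall fun w => (differentiable_pow s).differentiableAt
  g0 := zero_pow (by omega)
  rep := Eventually.of_forall fun k => by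
    rw [one_div_pow]
    push_cast
    rfl

lemma linInd_N (t : ℕ) : LinInd fun j : Fin t => serN (j + 2) (Nat.le_add_left 2 _) :=
  linInd_of_lead (m := fun j => (j : ℕ) + 2) (a := fun _ => 1) (fun i j hij => Nat.add_lt_add_right hij 2)
    (fun _ => one_ne_zero) fun j => by
      have h : (fun w : ℂ => (serN ((j : ℕ) + 2) (Nat.le_add_left 2 _)).g w - w ^ ((j : ℕ) + 2) * ((1 : ℝ) : ℂ)) =
          fun _ => 0 := by
        funext w
        show w ^ ((j : ℕ) + 2) - w ^ ((j : ℕ) + 2) * ((1 : ℝ) : ℂ) = 0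
        rw [Complex.ofReal_one, mul_one, sub_self]
      rw [h]
      exact Asymptotics.isLittleO_zero _ _

lemma coord_an (i : Fin 4) : AnalyticOnNhd ℂ (fun w : Fin 4 → ℂ => w i) Set.univ :=
  (ContinuousLinearMap.proj (R := ℂ) (φ := fun _ : Fin 4 => ℂ) i).analyticOnNhd _

/-- the functions of the linear form -/
noncomputable def fA : Fin 6 → (Fin 4 → ℂ) → ℂ :=
  ![fun w => w 0 * w 1, fun w => w 0, fun w => w 1, fun w => w 2, fun w => w 3, fun _ => 1]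

/-- the functions of the second linear form -/
noncomputable def fB : Fin 6 → (Fin 4 → ℂ) → ℂ :=
  ![fun w => w 0 * w 1, fun w => w 0, fun w => w 1, fun w => w 0 ^ 2, fun w => w 3, fun _ => 1]

lemma fA_sum (v : Fin 6 → ℂ) (w : Fin 4 → ℂ) :
    ∑ i, v i * fA i w = v 0 * (w 0 * w 1) + v 1 * w 0 + v 2 * w 1 + v 3 * w 2 + v 4 * w 3 + v 5 := by
  simp [fA, Fin.sum_univ_succ]
  ring

lemma fB_sum (v : Fin 6 → ℂ) (w : Fin 4 → ℂ) :
    ∑ i, v i * fB i w = v 0 * (w 0 * w 1) + v 1 * w 0 + v 2 * w 1 + v 3 * w 0 ^ 2 + v 4 * w 3 + v 5 := by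
  simp [fB, Fin.sum_univ_succ]
  ring

/-- the first form -/
noncomputable def entA : Ent where
  t := 4
  m := 6
  f := fA
  hf := by
    intro i
    fin_cases i
    · exact (coord_an 0).mul (coord_an 1)
    · exact coord_an 0
    · exact coord_an 1
    · exact coord_an 2
    · exact coord_an 3
    · exact analyticOnNhd_const
  hfi := by
    intro v hv
    by_contra hcon
    push Not at hcon
    simp only [fA_sum] at hcon
    apply hv
    have h5 : v 5 = 0 := by simpa using hcon ![0, 0, 0, 0]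
    have h1 : v 1 = 0 := by simpa [h5] using hcon ![1, 0, 0, 0]
    have h2 : v 2 = 0 := by simpa [h5] using hcon ![0, 1, 0, 0]
    have h3 : v 3 = 0 := by simpa [h5] using hcon ![0, 0, 1, 0]
    have h4 : v 4 = 0 := by simpa [h5] using hcon ![0, 0, 0, 1]
    have h0 : v 0 = 0 := by simpa [h5, h1, h2] using hcon ![1, 1, 0, 0]
    funext i
    fin_cases i <;> assumption

/-- the second form -/
noncomputable def entB : Ent where
  t := 4
  m := 6
  f := fB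
  hf := by
    intro i
    fin_cases i
    · exact (coord_an 0).mul (coord_an 1)
    · exact coord_an 0
    · exact coord_an 1
    · exact (coord_an 0).pow 2
    · exact coord_an 3
    · exact analyticOnNhd_const
  hfi := by
    intro v hv
    by_contra hcon
    push Not at hcon
    simp only [fB_sum] at hcon
    apply hv
    have h5 : v 5 = 0 := by simpa using hcon ![0, 0, 0, 0]
    have h2 : v 2 = 0 := by simpa [h5] using hcon ![0, 1, 0, 0]
    have h4 : v 4 = 0 := by simpa [h5] using hcon ![0, 0, 0, 1]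
    have h13 : v 1 + v 3 = 0 := by simpa [h5] using hcon ![1, 0, 0, 0]
    have h13' : v 1 * 2 + v 3 * 2 ^ 2 = 0 := by simpa [h5] using hcon ![2, 0, 0, 0]
    have h3 : v 3 = 0 := by linear_combination (h13' - 2 * h13) / 2
    have h1 : v 1 = 0 := by linear_combination h13 - h3
    have h0 : v 0 = 0 := by simpa [h5, h1, h2, h3] using hcon ![1, 1, 0, 0]
    funext i
    fin_cases i <;> assumption

/-- rational relations are integer relations -/
lemma no_rat {x y₁ y₂ y₃ y₄ κ : ℝ}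
    (h : ∀ H : ℕ, 2 ≤ H → ∀ v : Fin 6 → ℤ, v ≠ 0 → (∀ i, |v i| ≤ H) →
      (H : ℝ) ^ (-κ) ≤ |v 0 * x + v 1 * y₁ + v 2 * y₂ + v 3 * y₃ + v 4 * y₄ + v 5|) :
    ¬ ∃ a b c d e : ℚ, x = a * y₁ + b * y₂ + c * y₃ + d * y₄ + e := by
  rintro ⟨a, b, c, d, e, hx⟩
  obtain ⟨D, hD⟩ : ∃ D : ℕ, D = a.den * b.den * c.den * d.den * e.den := ⟨_, rfl⟩
  have hD0 : D ≠ 0 := by
    rw [hD]
    have := a.den_nz
    have := b.den_nz
    have := c.den_nz
    have := d.den_nz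
    have := e.den_nz
    positivity
  have key : ∀ q : ℚ, q.den ∣ D → ∃ m : ℤ, (m : ℝ) = (D : ℝ) * (q : ℝ) := by
    rintro q ⟨k, hk⟩
    refine ⟨q.num * k, ?_⟩
    have h1 : (q.den : ℝ) ≠ 0 := by exact_mod_cast q.den_nz
    rw [hk]
    push_cast
    have h2 : (q : ℝ) = q.num / q.den := by exact_mod_cast (Rat.num_div_den q).symm
    rw [h2]
    field_simp
  obtain ⟨a', ha'⟩ := key a ⟨b.den * c.den * d.den * e.den, by rw [hD]; ring⟩
  obtain ⟨b', hb'⟩ := key b ⟨a.den * c.den * d.den * e.den, by rw [hD]; ring⟩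
  obtain ⟨c', hc'⟩ := key c ⟨a.den * b.den * d.den * e.den, by rw [hD]; ring⟩
  obtain ⟨d', hd'⟩ := key d ⟨a.den * b.den * c.den * e.den, by rw [hD]; ring⟩
  obtain ⟨e', he'⟩ := key e ⟨a.den * b.den * c.den * d.den, by rw [hD]; ring⟩
  obtain ⟨v, hv⟩ : ∃ v : Fin 6 → ℤ, v = ![-(D : ℤ), a', b', c', d', e'] := ⟨_, rfl⟩
  obtain ⟨H, hH⟩ : ∃ H : ℕ, H = 2 + ∑ i, (v i).natAbs := ⟨_, rfl⟩
  have h1 := h H (by omega) v (by
    intro h0
    have h2 := congrFun h0 0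
    rw [hv] at h2
    simp only [Matrix.cons_val_zero, Pi.zero_apply, neg_eq_zero] at h2
    exact hD0 (by exact_mod_cast h2)) (fun i => by
    have h2 : (v i).natAbs ≤ ∑ i, (v i).natAbs := single_le_sum (f := fun i => (v i).natAbs) (fun _ _ => Nat.zero_le _) (mem_univ i)
    rw [← Int.natCast_natAbs]
    exact_mod_cast (by omega : (v i).natAbs ≤ H))
  have h2 : (v 0 : ℝ) * x + v 1 * y₁ + v 2 * y₂ + v 3 * y₃ + v 4 * y₄ + v 5 = 0 := by
    rw [hv]
    show (((-(D : ℤ) : ℤ)) : ℝ) * x + (a' : ℝ) * y₁ + (b' : ℝ) * y₂ + (c' : ℝ) * y₃ + (d' : ℝ) * y₄ + (e' : ℝ) = 0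
    rw [ha', hb', hc', hd', he', hx]
    push_cast
    ring
  rw [h2, abs_zero] at h1
  have h3 : 0 < (H : ℝ) ^ (-κ) := Real.rpow_pos_of_pos (by exact_mod_cast (by omega : 0 < H)) _
  linarith

theorem result :
    -- without omissions the numbers are the values of the zeta function
    (∀ s : ℕ, 2 ≤ s → ((zetaE ∅ s : ℝ) : ℂ) = riemannZeta s) ∧
    ∀ A : Set ℕ, PolyDense A → ∀ ε : ℝ, 0 < ε → ∀ M : ℕ,
      ∃ E : Set ℕ, E ⊆ A ∧ (∀ k ∈ E, 1 ≤ k ∧ M ≤ k) ∧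
        (∀ K : ℕ, 16 ≤ K → (({k : ℕ | k ∈ E ∧ k ≤ K}.ncard : ℕ) : ℝ) ≤ ε * Real.log (Real.log K)) ∧
        -- the question of the problem
        (¬ ∃ a b c d : ℚ, zetaE E 2 * zetaE E 3 = a * zetaE E 2 + b * zetaE E 3 + c * zetaE E 4 + d * zetaE E 5) ∧
        -- the question with `ζ(2) ^ 2` instead of `ζ(4)`
        (¬ ∃ a b c d : ℚ, zetaE E 2 * zetaE E 3 = a * zetaE E 2 + b * zetaE E 3 + c * zetaE E 2 ^ 2 + d * zetaE E 5) ∧
        -- the linear forms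
        (∃ c : ℝ, 0 < c ∧ ∀ H : ℕ, 2 ≤ H → ∀ a : Fin 6 → ℤ, a ≠ 0 → (∀ i, |a i| ≤ H) →
          (H : ℝ) ^ (-c) ≤ |a 0 * (zetaE E 2 * zetaE E 3) + a 1 * zetaE E 2 + a 2 * zetaE E 3 + a 3 * zetaE E 4 +
            a 4 * zetaE E 5 + a 5|) ∧
        (∃ c : ℝ, 0 < c ∧ ∀ H : ℕ, 2 ≤ H → ∀ a : Fin 6 → ℤ, a ≠ 0 → (∀ i, |a i| ≤ H) →
          (H : ℝ) ^ (-c) ≤ |a 0 * (zetaE E 2 * zetaE E 3) + a 1 * zetaE E 2 + a 2 * zetaE E 3 + a 3 * zetaE E 2 ^ 2 +
            a 4 * zetaE E 5 + a 5|) ∧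
        -- all polynomials in all values
        ∀ t d : ℕ, ∃ c : ℝ, 0 < c ∧ ∀ H : ℕ, 2 ≤ H → ∀ P : MvPolynomial (Fin t) ℤ, P ≠ 0 → P.totalDegree ≤ d →
          (∀ α, |P.coeff α| ≤ H) → (H : ℝ) ^ (-c) ≤ |MvPolynomial.aeval (fun i : Fin t => zetaE E ((i : ℕ) + 2)) P| := by
  refine ⟨fun s hs => zetaE_empty hs, fun A hA ε hε M => ?_⟩
  obtain ⟨E, z, _, h2, h3, h4, h5, h6⟩ := serMea (fun j => serN (j + 2) (Nat.le_add_left 2 _)) linInd_N
    (fun n => if n = 0 then entA else entB) hA hε M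
  have h0E : 0 ∉ E := fun h => by
    have := (h2 0 h).2.2
    omega
  have hz : z = fun j => zetaE E (j + 2) := by
    funext j
    have h7 := tendsto_omit (t := fun k : ℕ => 1 / (k : ℝ) ^ (j + 2)) (summable_pow (Nat.le_add_left 2 j)).hasSum h0E
    exact tendsto_nhds_unique (h4 j) h7
  have hA' : ∃ c : ℝ, 0 < c ∧ ∀ H : ℕ, 2 ≤ H → ∀ a : Fin 6 → ℤ, a ≠ 0 → (∀ i, |a i| ≤ H) →
      (H : ℝ) ^ (-c) ≤ |a 0 * (zetaE E 2 * zetaE E 3) + a 1 * zetaE E 2 + a 2 * zetaE E 3 + a 3 * zetaE E 4 +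
        a 4 * zetaE E 5 + a 5| := by
    obtain ⟨c, hc, h⟩ := h6 0
    rw [if_pos rfl, hz] at h
    refine ⟨c, hc, fun H hH a ha haH => ?_⟩
    have h7 : (H : ℝ) ^ (-c) ≤ ‖∑ i, (a i : ℂ) * fA i (rp fun i : Fin 4 => zetaE E ((i : ℕ) + 2))‖ := h H hH a ha haH
    rw [fA_sum] at h7
    rw [← Real.norm_eq_abs, ← Complex.norm_real]
    refine h7.trans (le_of_eq ?_)
    congr 1
    push_cast
    rfl
  have hB' : ∃ c : ℝ, 0 < c ∧ ∀ H : ℕ, 2 ≤ H → ∀ a : Fin 6 → ℤ, a ≠ 0 → (∀ i, |a i| ≤ H) →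
      (H : ℝ) ^ (-c) ≤ |a 0 * (zetaE E 2 * zetaE E 3) + a 1 * zetaE E 2 + a 2 * zetaE E 3 + a 3 * zetaE E 2 ^ 2 +
        a 4 * zetaE E 5 + a 5| := by
    obtain ⟨c, hc, h⟩ := h6 1
    rw [if_neg one_ne_zero, hz] at h
    refine ⟨c, hc, fun H hH a ha haH => ?_⟩
    have h7 : (H : ℝ) ^ (-c) ≤ ‖∑ i, (a i : ℂ) * fB i (rp fun i : Fin 4 => zetaE E ((i : ℕ) + 2))‖ := h H hH a ha haH
    rw [fB_sum] at h7
    rw [← Real.norm_eq_abs, ← Complex.norm_real]
    refine h7.trans (le_of_eq ?_)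
    congr 1
    push_cast
    rfl
  rw [hz] at h5
  refine ⟨E, fun k hk => (h2 k hk).1, fun k hk => ⟨(h2 k hk).2.2, (h2 k hk).2.1⟩, h3, ?_, ?_, hA', hB', h5⟩
  · obtain ⟨c, _, h⟩ := hA'
    rintro ⟨a, b, c', d, h8⟩
    exact no_rat h ⟨a, b, c', d, 0, by rw [h8]; push_cast; ring⟩
  · obtain ⟨c, _, h⟩ := hB'
    rintro ⟨a, b, c', d, h8⟩
    exact no_rat h ⟨a, b, c', d, 0, by rw [h8]; push_cast; ring⟩

end Pool.Agent.Results.MP_524521_nt.FewOmittedIntegers
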